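import Pool.Agent.Lib_helper6.BB.Tame

/-!
# BB, chapter T: walls, the line map, scaled quantities
-/

open Filter Topology Set MeasureTheory
open scoped ContDiff

namespace BB

/-- `tan φ` as a function of `q = sin φ` -/
noncomputable def mm (q : ℝ) : ℝ := q / Real.sqrt (1 - q ^ 2)

/-- horizontal coordinate of the wall point of parameter `t` -/
noncomputable def hx (b : ℝ → ℝ) (t : ℝ) : ℝ := ∫ s in (0 : ℝ)..t, Real.cos (b s)

/-- distance of the wall point of parameter `t` from the base line of the wall -/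
noncomputable def hf (b : ℝ → ℝ) (t : ℝ) : ℝ := ∫ s in (0 : ℝ)..t, Real.sin (b s)

/-- The two walls near a flat double normal of length `L`: `b1`, `b2` are the tangent angles of the bottom
wall and of the top wall as functions of arc length (the top one run backwards), on `(-A, B)`. -/
structure Walls (L A B : ℝ) (b1 b2 : ℝ → ℝ) : Prop where
  L_pos : 0 < L
  A_pos : 0 < A
  B_pos : 0 < B
  smooth1 : ContDiff ℝ ∞ b1
  smooth2 : ContDiff ℝ ∞ b2
  mono1 : Monotone b1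
  mono2 : Monotone b2
  zero1 : b1 0 = 0
  zero2 : b2 0 = 0
  flat1 : deriv b1 0 = 0
  flat2 : deriv b2 0 = 0
  small : ∀ x ∈ Icc (-A) B, |b1 x| ≤ 1 / 10 ∧ |b2 x| ≤ 1 / 10
  posB : 0 < b1 B + b2 B
  posA : b1 (-A) + b2 (-A) < 0
  low : ∀ x ∈ Icc (-A) B, hf b1 x < L / 2 ∧ hf b2 x < L / 2

/-- the line `(c, q)` (it starts at the point `c` of the opposite base line, the horizontal component of
its unit direction is `q`) meets the wall at the wall point of parameter `t` -/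
def IsHit (L A B : ℝ) (b : ℝ → ℝ) (p : ℝ × ℝ) (t : ℝ) : Prop :=
  t ∈ Ioo (-A) B ∧ hx b t = p.1 + (L - hf b t) * mm p.2

/-- horizontal component of the direction after the reflection at the wall point of parameter `t` -/
noncomputable def refl (b : ℝ → ℝ) (t q : ℝ) : ℝ :=
  q * Real.cos (2 * b t) - Real.sqrt (1 - q ^ 2) * Real.sin (2 * b t)

open Classical in
/-- the parameter of the wall point where the line hits the wall -/
noncomputable def hit (L A B : ℝ) (b : ℝ → ℝ) (p : ℝ × ℝ) : ℝ :=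
  if h : ∃ t, IsHit L A B b p t then h.choose else 0

/-- the outgoing line after the reflection at the wall point of parameter `t` of a line with direction `q` -/
noncomputable def outLine (b : ℝ → ℝ) (t q : ℝ) : ℝ × ℝ :=
  (hx b t - hf b t * mm (refl b t q), refl b t q)

/-- flight to the wall `b` and reflection there, as a map of the space of lines -/
noncomputable def Smap (L A B : ℝ) (b : ℝ → ℝ) (p : ℝ × ℝ) : ℝ × ℝ :=
  outLine b (hit L A B b p) p.2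

/-- two flights: reflection at the top wall (`b2`), then at the bottom wall (`b1`) -/
noncomputable def Fmap (L A B : ℝ) (b1 b2 : ℝ → ℝ) (p : ℝ × ℝ) : ℝ × ℝ :=
  Smap L A B b1 (Smap L A B b2 p)

/-- the potential -/
noncomputable def pot (b1 b2 : ℝ → ℝ) (x : ℝ) : ℝ := ∫ s in (0 : ℝ)..x, (b1 s + b2 s)

/-- the length scale `δ e` -/
structure Scale (b1 b2 δ : ℝ → ℝ) : Prop where
  pos : ∀ᶠ e in 𝓝[>] (0 : ℝ), 0 < δ e
  upper : ∃ C : ℝ, ∀ᶠ e in 𝓝[>] (0 : ℝ), δ e ≤ C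
  lower : ∃ c : ℝ, 0 < c ∧ ∀ᶠ e in 𝓝[>] (0 : ℝ), c * e ^ (1 / 4 : ℝ) ≤ δ e
  bound : ∀ᶠ e in 𝓝[>] (0 : ℝ), ∀ x : ℝ, pot b1 b2 x ≤ e → |x| ≤ δ e
  reach : ∀ᶠ e in 𝓝[>] (0 : ℝ), (∀ x ∈ Icc 0 (δ e), pot b1 b2 x ≤ e) ∨
    (∀ x ∈ Icc (-(δ e)) 0, pot b1 b2 x ≤ e)

/-- the small parameter `μ = √e / δ` -/
noncomputable def mu (δ : ℝ → ℝ) (e : ℝ) : ℝ := Real.sqrt e / δ e

/-- scaled angle functions -/
noncomputable def ww (δ b : ℝ → ℝ) (e X : ℝ) : ℝ := δ e / e * b (δ e * X)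

/-- scaled potential -/
noncomputable def Wp (δ b1 b2 : ℝ → ℝ) (e X : ℝ) : ℝ := pot b1 b2 (δ e * X) / e

/-- sublevel sets of the scaled potential -/
def Iset (b1 b2 δ : ℝ → ℝ) (k e : ℝ) : Set ℝ := {X | Wp δ b1 b2 e X < k}

/-- scaled energy -/
noncomputable def HH (L : ℝ) (b1 b2 δ : ℝ → ℝ) (e : ℝ) (p : ℝ × ℝ) : ℝ :=
  L * p.2 ^ 2 + 2 * Wp δ b1 b2 e p.1

/-- sublevel sets of the scaled energy -/
def Reg (L : ℝ) (b1 b2 δ : ℝ → ℝ) (k e : ℝ) : Set (ℝ × ℝ) := {p | HH L b1 b2 δ e p < k}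

/-- strips `Iset × (-r, r)` -/
def Box (b1 b2 δ : ℝ → ℝ) (k r e : ℝ) : Set (ℝ × ℝ) := Iset b1 b2 δ k e ×ˢ Ioo (-r) r

/-- scaling -/
noncomputable def sc (δ : ℝ → ℝ) (e : ℝ) (p : ℝ × ℝ) : ℝ × ℝ := (δ e * p.1, Real.sqrt e * p.2)

/-- inverse scaling -/
noncomputable def sci (δ : ℝ → ℝ) (e : ℝ) (p : ℝ × ℝ) : ℝ × ℝ := (p.1 / δ e, p.2 / Real.sqrt e)

/-- scaled one wall map -/
noncomputable def Ss (L A B : ℝ) (δ b : ℝ → ℝ) (e : ℝ) (p : ℝ × ℝ) : ℝ × ℝ :=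
  sci δ e (Smap L A B b (sc δ e p))

/-- scaled two wall map -/
noncomputable def Fs (L A B : ℝ) (b1 b2 δ : ℝ → ℝ) (e : ℝ) (p : ℝ × ℝ) : ℝ × ℝ :=
  sci δ e (Fmap L A B b1 b2 (sc δ e p))

/-- scaled line through the wall point `δ Y` with scaled direction `P`: `Y, P ↦ X, P` -/
noncomputable def Nl (L : ℝ) (δ b : ℝ → ℝ) (e : ℝ) (p : ℝ × ℝ) : ℝ × ℝ :=
  ((hx b (δ e * p.1) - (L - hf b (δ e * p.1)) * mm (Real.sqrt e * p.2)) / δ e, p.2)

end BB
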