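import Mathlib

/-!
# Smooth convex billiard tables, the billiard map and its invariant measure
-/

open Set MeasureTheory
open scoped ContDiff

namespace BB

/-- `D` is a bounded convex domain in the plane whose boundary is a `C^∞` curve; `γ` is a parametrisation of
the boundary by arc length, of period `ℓ`, with `D` on its left. -/
structure SmoothTable (D : Set ℂ) (γ : ℝ → ℂ) (ℓ : ℝ) : Prop where
  isOpen : IsOpen D
  convex : Convex ℝ D
  bounded : Bornology.IsBounded D
  nonempty : D.Nonempty
  length_pos : 0 < ℓ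
  smooth : ContDiff ℝ ∞ γ
  unitSpeed : ∀ s, ‖deriv γ s‖ = 1
  periodic : ∀ s, γ (s + ℓ) = γ s
  simple : ∀ s t, γ s = γ t → ∃ n : ℤ, t = s + n * ℓ
  boundary : frontier D = range γ
  left : ∀ s, ∀ z ∈ D, 0 < ((z - γ s) * (starRingEnd ℂ) (deriv γ s)).im

/-- The billiard map as a relation.  The state `(s, θ)` (with `0 < θ < π`) is the unit vector at the boundary
point `γ s` which makes the angle `θ` with the tangent vector `γ' s`; it points into the table.  `(s, θ)` is
followed by `(s', θ')` if the ray from `γ s` in the direction `exp (i θ) γ' s` meets the boundary at the point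
`γ s'`, with incoming direction `exp (- i θ') γ' s'`; after the reflection (angle of incidence = angle of
reflection) the direction is `exp (i θ') γ' s'`. -/
def Step (γ : ℝ → ℂ) (x y : ℝ × ℝ) : Prop :=
  x.2 ∈ Ioo 0 Real.pi ∧ y.2 ∈ Ioo 0 Real.pi ∧
    (∃ t : ℝ, 0 < t ∧ γ y.1 = γ x.1 + t * (Complex.exp (x.2 * Complex.I) * deriv γ x.1)) ∧
    Complex.exp (x.2 * Complex.I) * deriv γ x.1 = Complex.exp (-(y.2 * Complex.I)) * deriv γ y.1

/-- The standard invariant measure `sin θ ds dθ` of the billiard map on `[0, ℓ) × (0, π)` (`θ` is measured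
from the tangent; from the normal it is `cos θ ds dθ`). -/
noncomputable def bmeasure (ℓ : ℝ) : Measure (ℝ × ℝ) :=
  (volume.restrict (Ico 0 ℓ ×ˢ Ioo 0 Real.pi)).withDensity fun x => ENNReal.ofReal (Real.sin x.2)

/-- A set of states (a subset of the boundary phase space, written as a subset of `ℝ × ℝ` which is
`ℓ`-periodic in `s`) which is measurable and invariant under the billiard map. -/
structure InvariantSet (γ : ℝ → ℂ) (ℓ : ℝ) (A : Set (ℝ × ℝ)) : Prop where
  measurable : MeasurableSet A
  periodic : ∀ s θ, (s + ℓ, θ) ∈ A ↔ (s, θ) ∈ A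
  invariant : ∀ x y, Step γ x y → (x ∈ A ↔ y ∈ A)

/-- Ergodicity of the billiard map. -/
def ErgodicTable (γ : ℝ → ℂ) (ℓ : ℝ) : Prop :=
  ∀ A, InvariantSet γ ℓ A → bmeasure ℓ A = 0 ∨ bmeasure ℓ Aᶜ = 0

end BB
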