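import Pool.Agent.Lib_helper6.BB.Defs
import Pool.Agent.Lib_helper6.BB.Table

open Filter Topology Set MeasureTheory
open scoped ContDiff

namespace BB

/-- the boundary of the table near the double normal (conclusion of `table_walls`) -/
structure Local (γ : ℝ → ℂ) (s0 s1 L A B : ℝ) (b1 b2 : ℝ → ℝ) : Prop where
  walls : Walls L A B b1 b2
  bot : ∀ x, γ (s0 + x) = γ s0 + deriv γ s0 * (hx b1 x + hf b1 x * Complex.I)
  bot' : ∀ x, deriv γ (s0 + x) = deriv γ s0 * Complex.exp (b1 x * Complex.I)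
  top : ∀ x, γ (s1 - x) = γ s0 + deriv γ s0 * (hx b2 x + (L - hf b2 x) * Complex.I)
  top' : ∀ x, deriv γ (s1 - x) = -(deriv γ s0 * Complex.exp (-(b2 x * Complex.I)))

/-- the line of the state at the bottom wall point of parameter `x` with angle `θ` -/
noncomputable def Bot (b1 : ℝ → ℝ) (x θ : ℝ) : ℝ × ℝ :=
  (hx b1 x - hf b1 x * mm (Real.cos (θ + b1 x)), Real.cos (θ + b1 x))

/-- the line of the state at the top wall point of parameter `x` with angle `θ` -/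
noncomputable def Topl (b2 : ℝ → ℝ) (x θ : ℝ) : ℝ × ℝ :=
  (hx b2 x - hf b2 x * mm (-Real.cos (θ - b2 x)), -Real.cos (θ - b2 x))

/-- the invariant set of states belonging to invariant sets `D`, `D'` of lines -/
def States (ℓ s0 s1 A B : ℝ) (b1 b2 : ℝ → ℝ) (D D' : Set (ℝ × ℝ)) : Set (ℝ × ℝ) :=
  {y | y.2 ∈ Ioo 0 Real.pi ∧ ∃ n : ℤ, ∃ x ∈ Ioo (-A) B,
    (y.1 = s0 + x + n * ℓ ∧ Bot b1 x y.2 ∈ D) ∨ (y.1 = s1 - x + n * ℓ ∧ Topl b2 x y.2 ∈ D')}

end BB
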