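import Mathlib

/-!
# BB, chapter K: the statement of the KAM theorem (translated curve theorem near the identity)
-/

open Set
open scoped ContDiff

namespace BB

/-- The KAM theorem for area preserving maps near the identity, in the form of a translated curve theorem. -/
def KAMStatement : Prop :=
  ∃ (C s : ℝ) (N : ℕ), 1 ≤ C ∧ 1 ≤ s ∧ ∀ (M m al : ℝ) (tau : ℝ → ℝ) (a b : ℝ × ℝ → ℝ),
    1 ≤ M → 0 < m → m ≤ (C * M) ^ (-s) →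
    (∀ k j : ℤ, k ≠ 0 → m / (M * |(k : ℝ)|) ≤ |(k : ℝ) * al - j|) →
    ContDiffOn ℝ ∞ tau (Ioo (-1 / 4) (1 / 4)) →
    ContDiffOn ℝ ∞ a (univ ×ˢ Ioo (-1 / 4) (1 / 4)) →
    ContDiffOn ℝ ∞ b (univ ×ˢ Ioo (-1 / 4) (1 / 4)) →
    (∀ n ≤ N, ∀ y ∈ Ioo (-1 / 4 : ℝ) (1 / 4), |iteratedDeriv n tau y| ≤ M) →
    (∀ n ≤ N, ∀ p ∈ (univ ×ˢ Ioo (-1 / 4) (1 / 4) : Set (ℝ × ℝ)), ‖iteratedFDeriv ℝ n a p‖ ≤ M) →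
    (∀ n ≤ N, ∀ p ∈ (univ ×ˢ Ioo (-1 / 4) (1 / 4) : Set (ℝ × ℝ)), ‖iteratedFDeriv ℝ n b p‖ ≤ M) →
    (∀ x y : ℝ, a (x + 1, y) = a (x, y)) →
    (∀ x y : ℝ, b (x + 1, y) = b (x, y)) →
    tau 0 = 0 → 1 / M ≤ |deriv tau 0| →
    (∀ p ∈ (univ ×ˢ Ioo (-1 / 4) (1 / 4) : Set (ℝ × ℝ)),
      (fderiv ℝ (fun q : ℝ × ℝ => (q.1 + al + m * tau q.2 + m ^ 2 * a q, q.2 + m ^ 2 * b q)) p).det
        = 1) →
    ∃ (u v : ℝ → ℝ) (lam : ℝ), Continuous u ∧ Continuous v ∧ (∀ x, u (x + 1) = u x) ∧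
      (∀ x, v (x + 1) = v x) ∧ (∀ x, |u x| ≤ 1 / (100 * M)) ∧ (∀ x, |v x| ≤ 1 / (100 * M)) ∧
      |lam| ≤ 1 / (100 * M) ∧ (∀ x x', |u x - u x'| ≤ |x - x'| / 2) ∧
      ∀ x, x + u x + al + m * tau (v x) + m ^ 2 * a (x + u x, v x) = x + al + u (x + al) ∧
        v x + m ^ 2 * b (x + u x, v x) = v (x + al) + lam

end BB
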