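import Pool.Agent.Lib_helper6.BB.W.FIN
import Pool.Agent.Lib_helper16.BBK.ZB

/-!
# BB: the KAM statement holds
-/

open Set
open scoped ContDiff

namespace BB

/-- the KAM theorem, proved in chapter K -/
theorem kam : KAMStatement := by
  obtain ⟨C, s, N, hC, hs, h⟩ := BBK.KAM
  refine ⟨C, s, N, hC, hs, ?_⟩
  intro M m al tau a b hM hm hmC hdio ht ha hb bt ba bb pa pb t0 t1 hdet
  have e : (-1 / 4 : ℝ) = -(1 / 4) := by norm_num
  rw [e] at ht ha hb bt ba bb hdet
  obtain ⟨u, v, lam, hu, hv, pu, pv, bu, bv, bl, lip, hc⟩ :=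
    h M m al tau a b hM hm hmC hdio ht ha hb bt ba bb pa pb t0 t1 hdet
  refine ⟨u, v, lam, hu, hv, pu, pv, bu, bv, bl, lip, fun x => ?_⟩
  have h1 := hc x
  simp only [Prod.mk.injEq] at h1
  exact h1

end BB
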