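import Pool.Agent.Lib_helper6.BB.Defs

/-!
# BB, chapter T: polar coordinates, period, angle and action
-/

open Filter Topology Set MeasureTheory
open scoped ContDiff

namespace BB

/-- polar coordinates `(ψ, R) ↦ (R sin ψ, R cos ψ)` (the flow of the energy turns in the direction of `ψ`) -/
noncomputable def pol (q : ℝ × ℝ) : ℝ × ℝ := (q.2 * Real.sin q.1, q.2 * Real.cos q.1)

open Classical in
/-- radius of the energy curve `HH = h` in the direction `ψ` -/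
noncomputable def Rad (L : ℝ) (b1 b2 δ : ℝ → ℝ) (e : ℝ) (q : ℝ × ℝ) : ℝ :=
  if h : ∃ R : ℝ, 0 < R ∧ HH L b1 b2 δ e (pol (q.1, R)) = q.2 then h.choose else 0

/-- the point of the plane with angle `ψ` and energy `h`, `q = (ψ, h)` -/
noncomputable def Kp (L : ℝ) (b1 b2 δ : ℝ → ℝ) (e : ℝ) (q : ℝ × ℝ) : ℝ × ℝ :=
  pol (q.1, Rad L b1 b2 δ e q)

/-- `2 L P ^ 2 + 2 X W'(X)` -/
noncomputable def Vir (L : ℝ) (b1 b2 δ : ℝ → ℝ) (e : ℝ) (p : ℝ × ℝ) : ℝ :=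
  2 * L * p.2 ^ 2 + 2 * p.1 * (ww δ b1 e p.1 + ww δ b2 e p.1)

/-- angular speed -/
noncomputable def Om (L : ℝ) (b1 b2 δ : ℝ → ℝ) (e : ℝ) (q : ℝ × ℝ) : ℝ :=
  Vir L b1 b2 δ e (Kp L b1 b2 δ e q) / Rad L b1 b2 δ e q ^ 2

/-- period of the flow of the scaled energy -/
noncomputable def Per (L : ℝ) (b1 b2 δ : ℝ → ℝ) (e h : ℝ) : ℝ :=
  ∫ s in (0 : ℝ)..(2 * Real.pi), 1 / Om L b1 b2 δ e (s, h)

/-- normalised time (angle variable), `q = (ψ, h)` -/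
noncomputable def Th (L : ℝ) (b1 b2 δ : ℝ → ℝ) (e : ℝ) (q : ℝ × ℝ) : ℝ :=
  (∫ s in (0 : ℝ)..q.1, 1 / Om L b1 b2 δ e (s, q.2)) / Per L b1 b2 δ e q.2

open Classical in
/-- inverse of `Th` in the angle, `q = (θ, h)` -/
noncomputable def Psi (L : ℝ) (b1 b2 δ : ℝ → ℝ) (e : ℝ) (q : ℝ × ℝ) : ℝ :=
  if h : ∃ s : ℝ, Th L b1 b2 δ e (s, q.2) = q.1 then h.choose else 0

/-- action variable (normalised by `lam`, zero at `h0`) -/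
noncomputable def Act (L : ℝ) (b1 b2 δ : ℝ → ℝ) (lam : ℝ) (h0 : ℝ → ℝ) (e h : ℝ) : ℝ :=
  lam * ∫ s in (h0 e)..h, Per L b1 b2 δ e s

open Classical in
/-- energy as a function of the action -/
noncomputable def Hy (L : ℝ) (b1 b2 δ : ℝ → ℝ) (lam : ℝ) (h0 : ℝ → ℝ) (e y : ℝ) : ℝ :=
  if h : ∃ s : ℝ, s ∈ Ioo (h0 e - 1 / 4) (h0 e + 1 / 4) ∧ Act L b1 b2 δ lam h0 e s = y
  then h.choose else h0 e

/-- action angle coordinates `(θ, y) ↦ (X, P)` -/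
noncomputable def Zc (L : ℝ) (b1 b2 δ : ℝ → ℝ) (lam : ℝ) (h0 : ℝ → ℝ) (e : ℝ) (q : ℝ × ℝ) : ℝ × ℝ :=
  Kp L b1 b2 δ e (Psi L b1 b2 δ e (q.1, Hy L b1 b2 δ lam h0 e q.2), Hy L b1 b2 δ lam h0 e q.2)

/-- increment of the angle from `p` to `p'` -/
noncomputable def dang (p p' : ℝ × ℝ) : ℝ :=
  Real.arctan ((p.2 * p'.1 - p.1 * p'.2) / (p.1 * p'.1 + p.2 * p'.2))

/-- the map in action angle coordinates -/
noncomputable def Tm (L A B : ℝ) (b1 b2 δ : ℝ → ℝ) (lam : ℝ) (h0 : ℝ → ℝ) (e : ℝ) (q : ℝ × ℝ) :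
    ℝ × ℝ :=
  (Th L b1 b2 δ e
      (Psi L b1 b2 δ e (q.1, Hy L b1 b2 δ lam h0 e q.2) +
        dang (Zc L b1 b2 δ lam h0 e q) (Fs L A B b1 b2 δ e (Zc L b1 b2 δ lam h0 e q)),
      HH L b1 b2 δ e (Fs L A B b1 b2 δ e (Zc L b1 b2 δ lam h0 e q))),
    Act L b1 b2 δ lam h0 e (HH L b1 b2 δ e (Fs L A B b1 b2 δ e (Zc L b1 b2 δ lam h0 e q))))

/-- constant windows -/
def Win (w a b : ℝ) : ℝ → Set (ℝ × ℝ) := fun _ => Ioo (-w) w ×ˢ Ioo a b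

/-- area of the unscaled energy sublevel set -/
noncomputable def area (L : ℝ) (b1 b2 : ℝ → ℝ) (E : ℝ) : ℝ :=
  (volume {p : ℝ × ℝ | L * p.2 ^ 2 + 2 * pot b1 b2 p.1 < E}).toReal

/-- area of the scaled energy sublevel set -/
noncomputable def areaS (L : ℝ) (b1 b2 δ : ℝ → ℝ) (e h : ℝ) : ℝ :=
  (volume (Reg L b1 b2 δ h e)).toReal

/-- a suitable normalisation constant of the action: `lam * Per ≥ 2` on `(1/4, 3)` for small `e` -/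
def GoodLam (L : ℝ) (b1 b2 δ : ℝ → ℝ) (lam : ℝ) : Prop :=
  1 ≤ lam ∧ ∀ᶠ e in 𝓝[>] (0 : ℝ), ∀ h ∈ Ioo (1 / 4 : ℝ) 3, 2 ≤ lam * Per L b1 b2 δ e h

/-- the strip `|y| < 1/2` -/
def Str : Set (ℝ × ℝ) := univ ×ˢ Ioo (-1 / 2 : ℝ) (1 / 2)

end BB
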