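import Mathlib

/-!
# BB, chapter T: definitions of the tame calculus

`e` is a small positive parameter.  A family `f e` of functions on open sets `Ω e` is tame if every derivative
is bounded by `e ^ (-η)` for every `η > 0`, for all small `e`.
-/

open Filter Topology Set
open scoped ContDiff

namespace BB

/-- `|c e| ≤ e ^ (-η)` for every `η > 0` and all small `e > 0` -/
def Slow (c : ℝ → ℝ) : Prop :=
  ∀ η : ℝ, 0 < η → ∀ᶠ e in 𝓝[>] (0 : ℝ), |c e| ≤ e ^ (-η)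

/-- `|m e| ≤ e ^ κ` for some fixed `κ > 0` -/
def Fast (m : ℝ → ℝ) : Prop :=
  ∃ κ : ℝ, 0 < κ ∧ ∀ᶠ e in 𝓝[>] (0 : ℝ), |m e| ≤ e ^ κ

section

variable {V W : Type} [NormedAddCommGroup V] [NormedSpace ℝ V]
  [NormedAddCommGroup W] [NormedSpace ℝ W]

/-- tame families -/
def Tame (Ω : ℝ → Set V) (f : ℝ → V → W) : Prop :=
  (∀ᶠ e in 𝓝[>] (0 : ℝ), IsOpen (Ω e) ∧ ContDiffOn ℝ ∞ (f e) (Ω e)) ∧
  ∀ (n : ℕ) (η : ℝ), 0 < η → ∀ᶠ e in 𝓝[>] (0 : ℝ), ∀ x ∈ Ω e,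
    ‖iteratedFDeriv ℝ n (f e) x‖ ≤ e ^ (-η)

/-- `f` has the expansion `f0 + μ f1 + O(μ ^ 2)` in the tame sense -/
def Exp (m : ℝ → ℝ) (Ω : ℝ → Set V) (f f0 f1 : ℝ → V → W) : Prop :=
  Tame Ω f0 ∧ Tame Ω f1 ∧ ∃ r : ℝ → V → W, Tame Ω r ∧
    ∀ᶠ e in 𝓝[>] (0 : ℝ), ∀ x ∈ Ω e, f e x = f0 e x + m e • f1 e x + (m e) ^ 2 • r e x

/-- balls of radius `e ^ η` around the points `f0 e x`, `x ∈ Ω e`, lie in `Ω' e` (every `η > 0`) -/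
def InsMap (f0 : ℝ → V → W) (Ω : ℝ → Set V) (Ω' : ℝ → Set W) : Prop :=
  ∀ η : ℝ, 0 < η → ∀ᶠ e in 𝓝[>] (0 : ℝ), ∀ x ∈ Ω e, Metric.ball (f0 e x) (e ^ η) ⊆ Ω' e

/-- `Ω ⋐ Ω'` with a slowly shrinking margin -/
def Ins (Ω Ω' : ℝ → Set V) : Prop := InsMap (fun _ x => x) Ω Ω'

end

end BB
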