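import Mathlib

/-!
# BB, chapter G: invariant discs (abstract plane topology)
-/

open Filter Topology Set MeasureTheory
open scoped ContDiff

namespace BB

/-- A plane map `F` near the origin, an energy function `H`, and action angle coordinates `Z` on an annulus. -/
structure TopData (H : ℝ × ℝ → ℝ) (F Z : ℝ × ℝ → ℝ × ℝ) (hh : ℝ → ℝ) : Prop where
  Hconv : ConvexOn ℝ univ H
  Hcont : Continuous H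
  H0 : H 0 = 0
  Hnonneg : ∀ p, 0 ≤ H p
  Hbdd : Bornology.IsBounded {p | H p < 3}
  F0 : F 0 = 0
  Finj : InjOn F {p | H p < 3}
  Fcont : ContinuousOn F {p | H p < 3}
  Fopen : ∀ U : Set (ℝ × ℝ), IsOpen U → U ⊆ {p | H p < 3} → IsOpen (F '' U)
  Fvol : ∀ U : Set (ℝ × ℝ), MeasurableSet U → U ⊆ {p | H p < 3} → volume (F '' U) = volume U
  hmono : StrictMonoOn hh (Ioo (-1 / 2) (1 / 2))
  hcont : ContinuousOn hh (Ioo (-1 / 2) (1 / 2))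
  hrange : ∀ y ∈ Ioo (-1 / 2 : ℝ) (1 / 2), hh y ∈ Ioo (1 / 2 : ℝ) (3 / 2)
  ZH : ∀ x : ℝ, ∀ y ∈ Ioo (-1 / 2 : ℝ) (1 / 2), H (Z (x, y)) = hh y
  Zper : ∀ x : ℝ, ∀ y ∈ Ioo (-1 / 2 : ℝ) (1 / 2), ∀ n : ℤ, Z (x + n, y) = Z (x, y)
  Zinj : ∀ x x' : ℝ, ∀ y ∈ Ioo (-1 / 2 : ℝ) (1 / 2), ∀ y' ∈ Ioo (-1 / 2 : ℝ) (1 / 2),
    Z (x, y) = Z (x', y') → y = y' ∧ ∃ n : ℤ, x' = x + n
  Zsurj : ∀ p : ℝ × ℝ, ∀ y ∈ Ioo (-1 / 2 : ℝ) (1 / 2), H p = hh y → ∃ x : ℝ, Z (x, y) = p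
  Zcont : ContinuousOn Z (univ ×ˢ Ioo (-1 / 2 : ℝ) (1 / 2))
  Zopen : ∀ U : Set (ℝ × ℝ), IsOpen U → U ⊆ univ ×ˢ Ioo (-1 / 2 : ℝ) (1 / 2) → IsOpen (Z '' U)

/-- the disc below the curve `y = Y θ` -/
def DY (H : ℝ × ℝ → ℝ) (Z : ℝ × ℝ → ℝ × ℝ) (hh Y : ℝ → ℝ) : Set (ℝ × ℝ) :=
  {p | H p < hh (-1 / 4)} ∪ Z '' {q | -1 / 2 < q.2 ∧ q.2 < Y q.1}

/-- the closed curve `y = Y θ` -/
def GY (Z : ℝ × ℝ → ℝ × ℝ) (Y : ℝ → ℝ) : Set (ℝ × ℝ) := Z '' {q | q.2 = Y q.1}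

/-- admissible curves -/
def GoodY (Y : ℝ → ℝ) : Prop := Continuous Y ∧ (∀ x, Y (x + 1) = Y x) ∧ ∀ x, |Y x| ≤ 1 / 8

end BB
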